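import Pool.Agent.W307.RS.Stm
import Pool.Agent.W372.RK2.CNT4

/-! Project RS (helper307): `CNT4` with constants independent of the forms (adapted from
`Pool.Agent.W372.RK2.CNT4` of helper372). -/

set_option autoImplicit false
set_option linter.all false

namespace Pool.Agent.W337.RS

open Finset Pool.Agent.W372.RK2
open Pool.Agent.W262.RK hiding mem_Tup'

theorem cnt4u_of (h : Pool.Agent.W307.RT.SVR2) : Pool.Agent.W307.RS.CNT4U := by
  intro J _ _ cls z hzJ
  obtain ⟨C, K, y0, hC, hK, hSV2⟩ := h J z hzJ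
  refine ⟨C, K, y0, hC, hK, ?_⟩
  intro α β hB X y Y hy0 hzy hX s hs v hv u hu hsvu E
  have hSV : ∀ X y : ℕ, y0 ≤ y → z < y → y ^ K ≤ X → ∀ m r : ℕ, 1 ≤ m → m ^ 4 ≤ X →
      (((Icc 1 X).filter (fun t : ℕ => t ≡ r [MOD m] ∧ ∀ p ∈ PS z y, ¬ p ∣ m →
        ∀ j, ¬ (p : ℤ) ∣ ff α β t j)).card : ℝ) ≤
        C * (X / m) * (∏ p ∈ m.primeFactors.filter (fun p => p ∈ PS z y),
          (p : ℝ) / ((p : ℝ) - Fintype.card J)) / (Real.log y) ^ (Fintype.card J) := by
    intro X y h1 h2 h3 m r hm hm4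
    exact hSV2 X y h1 h2 h3 α β m m r hm dvd_rfl (by omega) hm4
      (fun p hp _ => hB.2 p (mem_PS.1 hp).2 (mem_PS.1 hp).1.1)
  have hs' := (mem_Tup'.1 hs).1
  have hv' := (mem_Tup'.1 hv).1
  have hu' := (mem_Tup'.1 hu).1
  have hz : 2 ≤ z := by have := hB.1; omega
  have hc : Fintype.card J ≤ z := by have := hB.1; omega
  have hlog : 0 ≤ (Real.log y) ^ (Fintype.card J) := pow_nonneg (Real.log_natCast_nonneg y) _
  set T := (Icc 1 X).filter (fun t : ℕ => s1 α β z y t = s ∧ s2 α β z y t = v ∧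
      (∀ j, (u j : ℤ) ∣ ff α β t j) ∧ neg3 cls α β t s = E) with hT
  have hgood : ∀ t ∈ T, Good α β z y s v u (t : ℤ) ∧ neg3 cls α β t s = E := by
    intro t ht
    rw [hT, mem_filter] at ht
    exact ⟨⟨ht.2.1, ht.2.2.1, ht.2.2.2.1⟩, ht.2.2.2.2⟩
  have hgs : ∀ j, 0 ≤ gw 1 (Fintype.card J) (s j) := fun j => gw_nonneg zero_le_one hc (hs' j)
  have hgv : ∀ j, 0 ≤ gw 1 (Fintype.card J) (v j) := fun j => gw_nonneg zero_le_one hc (hv' j)
  rcases T.eq_empty_or_nonempty with hTe | ⟨t0, ht0⟩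
  · rw [hTe, card_empty, Nat.cast_zero]
    apply div_nonneg _ hlog
    have h1 : 0 ≤ ∏ j, gw 1 (Fintype.card J) (s j) := prod_nonneg fun j _ => hgs j
    have h2 : 0 ≤ ∏ j, gw 1 (Fintype.card J) (v j) / v j :=
      prod_nonneg fun j _ => div_nonneg (hgv j) (Nat.cast_nonneg _)
    have h3 : 0 ≤ ∏ j, 1 / (u j : ℝ) := prod_nonneg fun j _ => by positivity
    positivity
  set m := ∏ j, mj cls s v u j with hm
  have hmj1 : ∀ j, 1 ≤ mj cls s v u j := by
    intro j
    unfold mj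
    have h1 := dv_pos (hs' j)
    have h2 := dv_pos (hv' j)
    have h3 := dv_pos (hu' j)
    have h4 : 0 < (if cls j = 3 then s j else 1) := by split_ifs <;> omega
    exact Nat.succ_le_of_lt (by positivity)
  have hm1 : 1 ≤ m := Nat.succ_le_of_lt (prod_pos fun j _ => hmj1 j)
  have hm4 : m ^ 4 ≤ X := by
    refine le_trans ?_ hsvu
    have h1 : m ≤ (∏ j, s j * v j * u j) ^ 2 := by
      rw [← prod_pow]
      apply prod_le_prod'
      intro j _
      unfold mj
      have h1 := dv_pos (hs' j)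
      have h3 := dv_pos (hu' j)
      have h4 : (if cls j = 3 then s j else 1) ≤ s j := by split_ifs <;> omega
      calc s j * (if cls j = 3 then s j else 1) * v j ^ 2 * u j
          ≤ s j * s j * v j ^ 2 * (u j * u j) := by
            apply Nat.mul_le_mul
            · exact Nat.mul_le_mul_right _ (Nat.mul_le_mul_left _ h4)
            · nlinarith
        _ = (s j * v j * u j) ^ 2 := by ring
    calc m ^ 4 ≤ ((∏ j, s j * v j * u j) ^ 2) ^ 4 := Nat.pow_le_pow_left h1 4
      _ = (∏ j, s j * v j * u j) ^ 8 := by rw [← pow_mul]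
  have hsq := (hgood t0 ht0).1
  -- bound for a fibre
  set B : ℝ := C * (X / m) * (∏ p ∈ m.primeFactors.filter (fun p => p ∈ PS z y),
        (p : ℝ) / ((p : ℝ) - Fintype.card J)) / (Real.log y) ^ (Fintype.card J) with hBdef
  have hfib : ∀ φ : P3 cls s → ℕ,
      ((T.filter (fun t : ℕ => Phi α β cls s (t : ℤ) = φ)).card : ℝ) ≤ B := by
    intro φ
    rcases (T.filter (fun t : ℕ => Phi α β cls s (t : ℤ) = φ)).eq_empty_or_nonempty with
      he | ⟨r, hr⟩
    · rw [he, card_empty, Nat.cast_zero]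
      exact le_trans (Nat.cast_nonneg _) (hSV X y hy0 hzy hX m 0 hm1 hm4)
    · refine le_trans ?_ (hSV X y hy0 hzy hX m r hm1 hm4)
      rw [Nat.cast_le]
      apply card_le_card
      intro t ht
      rw [mem_filter] at ht hr
      have g := (hgood t ht.1).1
      have g' := (hgood r hr.1).1
      have htX : t ∈ Icc 1 X := (mem_filter.1 ht.1).1
      rw [mem_filter]
      refine ⟨htX, ?_, ?_⟩
      · have h1 := congr_of hB hzy hs hv hu g g' (fun j hj p hp hps =>
          Phi_congr hB hs g g' (ht.2.trans hr.2.symm) j hj p hp hps)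
        rw [← hm] at h1
        exact ((Nat.modEq_iff_dvd.2 h1)).symm
      · intro p hpP hpm j hpf
        have hp := (mem_PS.1 hpP).2
        apply hpm
        rw [hm]
        refine Dvd.dvd.trans ?_ (dvd_prod_of_mem _ (mem_univ j))
        unfold mj
        by_cases h2 : (p : ℤ) ^ 2 ∣ ff α β t j
        · have h3 : p ∣ v j := by
            rw [← g.hv]
            exact (dvd_s2 hp).2 ⟨hpP, h2⟩
          exact (((h3.pow two_ne_zero).mul_left _).mul_right _)
        · have h3 : p ∣ s j := by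
            rw [← g.hs]
            exact (dvd_s1 hp).2 ⟨hpP, hpf, h2⟩
          exact (((h3.mul_right _).mul_right _).mul_right _)
  have hB0 : 0 ≤ B := le_trans (Nat.cast_nonneg _) (hSV X y hy0 hzy hX m 0 hm1 hm4)
  have hcard : (T.card : ℝ) ≤
      ((Fintype.piFinset (fun p : P3 cls s => WW E p.1)).card : ℝ) * B := by
    rw [card_eq_sum_card_fiberwise (f := fun t : ℕ => Phi α β cls s (t : ℤ))
      (t := Fintype.piFinset (fun p : P3 cls s => WW E p.1))
      (fun t ht => Phi_mem hB (hgood t ht).1 (hgood t ht).2)]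
    rw [Nat.cast_sum]
    refine (sum_le_sum fun φ _ => hfib φ).trans ?_
    rw [sum_const, nsmul_eq_mul]
  refine hcard.trans ((mul_le_mul_of_nonneg_right (card_Phi hz hs E) hB0).trans ?_)
  rw [hBdef, hm, prod_primes hB hs hv hu hsq, Nat.cast_prod]
  have hterm : ∀ j, ((if cls j = 3 then s j else 1 : ℕ) : ℝ) * ((s j *
      gw 1 (Fintype.card J) (s j)) * (v j * gw 1 (Fintype.card J) (v j))) /
      ((mj cls s v u j : ℕ) : ℝ) = gw 1 (Fintype.card J) (s j) *
      (gw 1 (Fintype.card J) (v j) / v j) * (1 / (u j : ℝ)) := by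
    intro j
    have h1 : (s j : ℝ) ≠ 0 := Nat.cast_ne_zero.2 (dv_ne_zero (hs' j))
    have h2 : (v j : ℝ) ≠ 0 := Nat.cast_ne_zero.2 (dv_ne_zero (hv' j))
    have h3 : (u j : ℝ) ≠ 0 := Nat.cast_ne_zero.2 (dv_ne_zero (hu' j))
    have h4 : ((if cls j = 3 then s j else 1 : ℕ) : ℝ) ≠ 0 := by
      split_ifs
      · exact h1
      · simp
    unfold mj
    rw [Nat.cast_mul, Nat.cast_mul, Nat.cast_mul, Nat.cast_pow]
    field_simp
  have hprod : (∏ j, ((if cls j = 3 then s j else 1 : ℕ) : ℝ)) *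
      (∏ j, ((s j * gw 1 (Fintype.card J) (s j)) * (v j * gw 1 (Fintype.card J) (v j)))) /
      (∏ j, ((mj cls s v u j : ℕ) : ℝ)) = (∏ j, gw 1 (Fintype.card J) (s j)) *
        (∏ j, gw 1 (Fintype.card J) (v j) / v j) * (∏ j, 1 / (u j : ℝ)) := by
    rw [← prod_mul_distrib, ← prod_div_distrib, ← prod_mul_distrib, ← prod_mul_distrib]
    exact prod_congr rfl fun j _ => hterm j
  apply le_of_eq
  rw [show C * X * (1 / 2) ^ (P3 cls s).card * (∏ j, gw 1 (Fintype.card J) (s j)) *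
        (∏ j, gw 1 (Fintype.card J) (v j) / v j) * (∏ j, 1 / (u j : ℝ)) =
      C * X * (1 / 2) ^ (P3 cls s).card * ((∏ j, gw 1 (Fintype.card J) (s j)) *
        (∏ j, gw 1 (Fintype.card J) (v j) / v j) * (∏ j, 1 / (u j : ℝ))) by ring, ← hprod]
  ring

end Pool.Agent.W337.RS
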